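import Pool.Agent.Helper86.QA.St5

/-!
# Project QD, part A, module AD1: the area cocycle of the closed disc
-/

set_option autoImplicit false

open MeasureTheory Matrix Set Topology Filter
open scoped ENNReal ComplexConjugate ComplexOrder

namespace Pool.Agent.Helper70.QA

open Pool.Agent.Helper86.QA Pool.Agent.Helper20

private lemma re_nn {p q : ℂ} (hp : ‖p‖ ≤ 1) (hq : ‖q‖ ≤ 1) : 0 ≤ (1 - p * conj q).re := by
  have h := Complex.re_le_norm (p * conj q)
  have h2 : ‖p * conj q‖ ≤ 1 := by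
    rw [norm_mul, RCLike.norm_conj]
    exact mul_le_one₀ hp (norm_nonneg _) hq
  simp only [Complex.sub_re, Complex.one_re]
  linarith

private lemma re_ps {p q : ℂ} (hp : ‖p‖ < 1) (hq : ‖q‖ ≤ 1) : 0 < (1 - p * conj q).re := by
  have h := Complex.re_le_norm (p * conj q)
  have h2 : ‖p * conj q‖ < 1 := by
    rw [norm_mul, RCLike.norm_conj]
    nlinarith [norm_nonneg p, norm_nonneg q]
  simp only [Complex.sub_re, Complex.one_re]
  linarith

private lemma arg_mul' {w u : ℂ} (hw : 0 ≤ w.re) (hw0 : w ≠ 0) (hu : 0 < u.re) :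
    Complex.arg (w * u) = Complex.arg w + Complex.arg u := by
  have hu0 : u ≠ 0 := by
    rintro rfl
    simp at hu
  rw [Complex.arg_mul_eq_add_arg_iff hw0 hu0]
  have h1 := Complex.abs_arg_le_pi_div_two_iff.2 hw
  have h2 := Complex.abs_arg_lt_pi_div_two_iff.2 (Or.inl hu)
  rw [abs_le] at h1
  rw [abs_lt] at h2
  constructor <;> linarith

private lemma arg_conj' {w : ℂ} (hw : 0 ≤ w.re) : Complex.arg (conj w) = - Complex.arg w := by
  rw [Complex.arg_conj, if_neg]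
  intro h
  have h1 := Complex.abs_arg_le_pi_div_two_iff.2 hw
  rw [h, abs_of_pos Real.pi_pos] at h1
  linarith [Real.pi_pos]

private lemma bd_abs {p q : ℂ} (hp : ‖p‖ ≤ 1) (hq : ‖q‖ ≤ 1) : |bd p q| ≤ Real.pi := by
  unfold bd
  rw [abs_mul, abs_two]
  have := Complex.abs_arg_le_pi_div_two_iff.2 (re_nn hp hq)
  linarith

private lemma bd_anti {p q : ℂ} (hp : ‖p‖ ≤ 1) (hq : ‖q‖ ≤ 1) : bd q p = - bd p q := by
  unfold bd
  have h : 1 - q * conj p = conj (1 - p * conj q) := by simp [mul_comm]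
  rw [h, arg_conj' (re_nn hp hq)]
  ring

private lemma eq_of {p q : ℂ} (hp : ‖p‖ ≤ 1) (hq : ‖q‖ ≤ 1) (h : 1 - p * conj q = 0) : p = q := by
  have h1 : p * conj q = 1 := (sub_eq_zero.1 h).symm
  have h2 : ‖p‖ * ‖q‖ = 1 := by
    have := congrArg norm h1
    rwa [norm_mul, RCLike.norm_conj, norm_one] at this
  have h3 : ‖q‖ = 1 := by nlinarith [norm_nonneg p, norm_nonneg q]
  have h4 : conj q * q = 1 := by
    rw [mul_comm, Complex.mul_conj, Complex.normSq_eq_norm_sq, h3]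
    simp
  calc p = p * (conj q * q) := by rw [h4, mul_one]
    _ = p * conj q * q := by ring
    _ = q := by rw [h1, one_mul]

/-! ### matrices in `SU(1,1)` -/

private lemma su_det {A : SL} (hA : QD.IsSU A) :
    (A : Mat) 0 0 * conj ((A : Mat) 0 0) - (A : Mat) 0 1 * conj ((A : Mat) 0 1) = 1 := by
  have h := A.2
  rw [Matrix.det_fin_two, hA.1, hA.2] at h
  exact h

private lemma su_norm {A : SL} (hA : QD.IsSU A) :
    ‖(A : Mat) 0 0‖ ^ 2 - ‖(A : Mat) 0 1‖ ^ 2 = 1 := by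
  have h := su_det hA
  rw [Complex.mul_conj, Complex.mul_conj, Complex.normSq_eq_norm_sq,
    Complex.normSq_eq_norm_sq] at h
  exact_mod_cast h

private lemma u_pos {A : SL} (hA : QD.IsSU A) {p : ℂ} (hp : ‖p‖ ≤ 1) :
    0 < ((A : Mat) 0 0 * QD.den A p).re := by
  have h := su_norm hA
  have e : (A : Mat) 0 0 * QD.den A p =
      ((‖(A : Mat) 0 0‖ ^ 2 : ℝ) : ℂ) + (A : Mat) 0 0 * conj ((A : Mat) 0 1) * p := by
    unfold QD.den
    rw [hA.1, hA.2]
    have h1 : (A : Mat) 0 0 * conj ((A : Mat) 0 0) = ((‖(A : Mat) 0 0‖ ^ 2 : ℝ) : ℂ) := by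
      rw [Complex.mul_conj, Complex.normSq_eq_norm_sq]
    rw [← h1]
    ring
  rw [e, Complex.add_re, Complex.ofReal_re]
  have h1 := (abs_le.1 (Complex.abs_re_le_norm
    ((A : Mat) 0 0 * conj ((A : Mat) 0 1) * p))).1
  rw [norm_mul, norm_mul, RCLike.norm_conj] at h1
  have hx := norm_nonneg ((A : Mat) 0 0)
  have hy := norm_nonneg ((A : Mat) 0 1)
  generalize ‖(A : Mat) 0 0‖ = x at *
  generalize ‖(A : Mat) 0 1‖ = y at *
  have hyx : y < x := by nlinarith
  have h2 : x * y * ‖p‖ ≤ x * y := mul_le_of_le_one_right (by positivity) hp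
  nlinarith

private lemma den_ne {A : SL} (hA : QD.IsSU A) {p : ℂ} (hp : ‖p‖ ≤ 1) : QD.den A p ≠ 0 := by
  intro h
  have h1 := u_pos hA hp
  rw [h, mul_zero, Complex.zero_re] at h1
  exact lt_irrefl _ h1

private lemma ident {A : SL} (hA : QD.IsSU A) {p q : ℂ} (hp : QD.den A p ≠ 0)
    (hq : QD.den A q ≠ 0) :
    (1 - QD.mob A p * conj (QD.mob A q)) * (QD.den A p * conj (QD.den A q)) =
      1 - p * conj q := by
  have h := su_det hA
  have e1 : ∀ z : ℂ, QD.den A z ≠ 0 →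
      QD.mob A z * QD.den A z = (A : Mat) 0 0 * z + (A : Mat) 0 1 := fun z hz => by
    unfold QD.mob
    unfold QD.den at hz ⊢
    rw [div_mul_cancel₀ _ hz]
  have e2 : conj (QD.mob A q) * conj (QD.den A q) =
      conj ((A : Mat) 0 0) * conj q + conj ((A : Mat) 0 1) := by
    rw [← map_mul, e1 q hq, map_add, map_mul]
  calc (1 - QD.mob A p * conj (QD.mob A q)) * (QD.den A p * conj (QD.den A q)) =
      QD.den A p * conj (QD.den A q) -
        (QD.mob A p * QD.den A p) * (conj (QD.mob A q) * conj (QD.den A q)) := by ring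
    _ = 1 - p * conj q := by
      rw [e1 p hp, e2]
      unfold QD.den
      rw [hA.1, hA.2]
      simp only [map_add, map_mul, Complex.conj_conj]
      linear_combination (1 - p * conj q) * h

private lemma norm_mob {A : SL} (hA : QD.IsSU A) {p : ℂ} (hp : ‖p‖ ≤ 1) :
    (1 - ‖QD.mob A p‖ ^ 2) * ‖QD.den A p‖ ^ 2 = 1 - ‖p‖ ^ 2 := by
  have h := ident hA (den_ne hA hp) (den_ne hA hp)
  rw [Complex.mul_conj, Complex.mul_conj, Complex.mul_conj, Complex.normSq_eq_norm_sq,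
    Complex.normSq_eq_norm_sq, Complex.normSq_eq_norm_sq] at h
  exact_mod_cast h

private lemma part5 {A : SL} (hA : QD.IsSU A) (p : ℂ) :
    (p ∈ Metric.closedBall (0 : ℂ) 1 → QD.den A p ≠ 0 ∧
    QD.mob A p ∈ Metric.closedBall (0 : ℂ) 1) ∧ (p ∈ Metric.ball (0 : ℂ) 1 →
    QD.mob A p ∈ Metric.ball (0 : ℂ) 1) ∧ (p ∈ Metric.sphere (0 : ℂ) 1 →
    QD.mob A p ∈ Metric.sphere (0 : ℂ) 1) := by
  simp only [mem_closedBall_zero_iff, mem_ball_zero_iff, mem_sphere_zero_iff_norm]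
  refine ⟨fun hp => ⟨den_ne hA hp, ?_⟩, fun hp => ?_, fun hp => ?_⟩
  · have h := norm_mob hA hp
    have hd : 0 < ‖QD.den A p‖ ^ 2 := by
      have := norm_pos_iff.2 (den_ne hA hp)
      positivity
    have h1 : 0 ≤ 1 - ‖p‖ ^ 2 := by nlinarith [norm_nonneg p]
    have h2 : 0 ≤ 1 - ‖QD.mob A p‖ ^ 2 := by
      by_contra hc
      push Not at hc
      nlinarith
    nlinarith [norm_nonneg (QD.mob A p)]
  · have h := norm_mob hA hp.le
    have hd : 0 < ‖QD.den A p‖ ^ 2 := by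
      have := norm_pos_iff.2 (den_ne hA hp.le)
      positivity
    have h1 : 0 < 1 - ‖p‖ ^ 2 := by nlinarith [norm_nonneg p]
    have h2 : 0 < 1 - ‖QD.mob A p‖ ^ 2 := by
      by_contra hc
      push Not at hc
      nlinarith
    nlinarith [norm_nonneg (QD.mob A p)]
  · have h := norm_mob hA hp.le
    have hd : 0 < ‖QD.den A p‖ ^ 2 := by
      have := norm_pos_iff.2 (den_ne hA hp.le)
      positivity
    rw [hp] at h
    have h2 : 1 - ‖QD.mob A p‖ ^ 2 = 0 := by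
      rcases mul_eq_zero.1 (h.trans (by norm_num)) with h3 | h3
      · exact h3
      · exact absurd h3 hd.ne'
    have h3 : (‖QD.mob A p‖ - 1) * (‖QD.mob A p‖ + 1) = 0 := by linarith
    rcases mul_eq_zero.1 h3 with h4 | h4
    · linarith
    · linarith [norm_nonneg (QD.mob A p)]

/-- the exact transformation rule of the primitive -/
private lemma bd_mob {A : SL} (hA : QD.IsSU A) {p q : ℂ} (hp : ‖p‖ ≤ 1) (hq : ‖q‖ ≤ 1) :
    bd (QD.mob A p) (QD.mob A q) + 2 * Complex.arg ((A : Mat) 0 0 * QD.den A p) =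
      bd p q + 2 * Complex.arg ((A : Mat) 0 0 * QD.den A q) := by
  have hmp : ‖QD.mob A p‖ ≤ 1 := by
    simpa [mem_closedBall_zero_iff] using ((part5 hA p).1 (by simpa using hp)).2
  have hmq : ‖QD.mob A q‖ ≤ 1 := by
    simpa [mem_closedBall_zero_iff] using ((part5 hA q).1 (by simpa using hq)).2
  have hid := ident hA (den_ne hA hp) (den_ne hA hq)
  by_cases hz : 1 - p * conj q = 0
  · have hpq := eq_of hp hq hz
    subst hpq
    have h1 := bd_anti hp hp
    have h2 := bd_anti hmp hmp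
    linarith
  · have hw0 : 1 - QD.mob A p * conj (QD.mob A q) ≠ 0 := by
      intro h
      rw [h, zero_mul] at hid
      exact hz hid.symm
    have up := u_pos hA hp
    have uq := u_pos hA hq
    have h1 := arg_mul' (re_nn hmp hmq) hw0 up
    have h2 := arg_mul' (re_nn hp hq) hz uq
    have ha : 0 < ‖(A : Mat) 0 0‖ ^ 2 := by
      have := su_norm hA
      nlinarith [sq_nonneg ‖(A : Mat) 0 1‖]
    have hu : 0 < ‖(A : Mat) 0 0 * QD.den A q‖ ^ 2 := by
      have : (A : Mat) 0 0 * QD.den A q ≠ 0 := by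
        intro h
        rw [h] at uq
        simp at uq
      have := norm_pos_iff.2 this
      positivity
    have key : ((‖(A : Mat) 0 0 * QD.den A q‖ ^ 2 : ℝ) : ℂ) *
        ((1 - QD.mob A p * conj (QD.mob A q)) * ((A : Mat) 0 0 * QD.den A p)) =
        ((‖(A : Mat) 0 0‖ ^ 2 : ℝ) : ℂ) *
        ((1 - p * conj q) * ((A : Mat) 0 0 * QD.den A q)) := by
      rw [← Complex.normSq_eq_norm_sq, ← Complex.normSq_eq_norm_sq, ← Complex.mul_conj,
        ← Complex.mul_conj, map_mul]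
      linear_combination ((A : Mat) 0 0 * conj ((A : Mat) 0 0) *
        ((A : Mat) 0 0 * QD.den A q)) * hid
    have h3 : Complex.arg ((1 - QD.mob A p * conj (QD.mob A q)) *
        ((A : Mat) 0 0 * QD.den A p)) =
        Complex.arg ((1 - p * conj q) * ((A : Mat) 0 0 * QD.den A q)) := by
      rw [← Complex.arg_real_mul _ hu, key, Complex.arg_real_mul _ ha]
    rw [h1, h2] at h3
    unfold bd
    linarith

/-! ### triples on the circle -/

private lemma arg_I_mul {s : ℂ} {z : ℂ} (hs : s = Complex.I ∨ s = -Complex.I)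
    (hz : 0 < z.re) : Complex.arg (s * conj z) = Complex.arg s - Complex.arg z := by
  have hz' : conj z ≠ 0 := by
    intro h
    rw [map_eq_zero] at h
    rw [h] at hz
    simp at hz
  have hs0 : s ≠ 0 := by
    rcases hs with rfl | rfl <;> simp
  have h2 := Complex.abs_arg_lt_pi_div_two_iff.2 (Or.inl hz)
  rw [abs_lt] at h2
  have h3 := arg_conj' hz.le
  have h4 : Complex.arg (s * conj z) = Complex.arg s + Complex.arg (conj z) := by
    rw [Complex.arg_mul_eq_add_arg_iff hs0 hz', h3]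
    rcases hs with rfl | rfl
    · rw [Complex.arg_I]
      constructor <;> linarith [Real.pi_pos]
    · rw [Complex.arg_neg_I]
      constructor <;> linarith [Real.pi_pos]
  rw [h4, h3]
  ring

private lemma circ_pos {p q : ℂ} (hp : ‖p‖ = 1) (hq : ‖q‖ = 1) (hpq : p ≠ q) :
    0 < (1 - p * conj q).re := by
  have h0 := re_nn hp.le hq.le
  rcases h0.lt_or_eq with h | h
  · exact h
  · exfalso
    have h1 : (p * conj q).re = 1 := by
      simp only [Complex.sub_re, Complex.one_re] at h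
      linarith
    have h2 : ‖p * conj q‖ = 1 := by rw [norm_mul, RCLike.norm_conj, hp, hq, one_mul]
    have h3 : (p * conj q).re ^ 2 + (p * conj q).im ^ 2 = 1 := by
      have := Complex.normSq_eq_norm_sq (p * conj q)
      rw [h2, Complex.normSq_apply] at this
      nlinarith
    have h4 : (p * conj q).im = 0 := by
      rw [h1] at h3
      nlinarith
    have h5 : p * conj q = 1 := Complex.ext (by simpa using h1) (by simpa using h4)
    exact hpq (eq_of hp.le hq.le (by rw [h5, sub_self]))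

private lemma part6 {p q r : ℂ} (hp : ‖p‖ = 1) (hq : ‖q‖ = 1) (hr : ‖r‖ = 1) (hpq : p ≠ q)
    (hqr : q ≠ r) (hrp : r ≠ p) : Ad p q r = Real.pi ∨ Ad p q r = - Real.pi := by
  have z1 := circ_pos hp hq hpq
  have z2 := circ_pos hq hr hqr
  have z3 := circ_pos hr hp hrp
  have ne : ∀ z : ℂ, 0 < z.re → z ≠ 0 := fun z hz h => by
    rw [h] at hz
    simp at hz
  have hpc : p * conj p = 1 := by
    rw [Complex.mul_conj, Complex.normSq_eq_norm_sq, hp]
    simp
  have hqc : q * conj q = 1 := by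
    rw [Complex.mul_conj, Complex.normSq_eq_norm_sq, hq]
    simp
  have hrc : r * conj r = 1 := by
    rw [Complex.mul_conj, Complex.normSq_eq_norm_sq, hr]
    simp
  obtain ⟨P, hP⟩ : ∃ P : ℂ, P = (1 - p * conj q) * (1 - q * conj r) * (1 - r * conj p) :=
    ⟨_, rfl⟩
  have hPc : conj P = - P := by
    rw [hP]
    simp only [map_mul, map_sub, map_one, Complex.conj_conj]
    have e1 : conj p * q * (p * conj q) = 1 := by linear_combination hqc * (p * conj p) + hpc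
    have e2 : conj q * r * (q * conj r) = 1 := by linear_combination hrc * (q * conj q) + hqc
    have e3 : conj r * p * (r * conj p) = 1 := by linear_combination hpc * (r * conj r) + hrc
    have e4 : (p * conj q) * (q * conj r) * (r * conj p) = 1 := by
      linear_combination (p * conj p) * (q * conj q) * hrc + (p * conj p) * hqc + hpc
    have e5 : (conj p * q) * (conj q * r) * (conj r * p) = 1 := by
      linear_combination (p * conj p) * (q * conj q) * hrc + (p * conj p) * hqc + hpc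
    have f1 : 1 - conj p * q = - (conj p * q) * (1 - p * conj q) := by
      linear_combination -e1
    have f2 : 1 - conj q * r = - (conj q * r) * (1 - q * conj r) := by
      linear_combination -e2
    have f3 : 1 - conj r * p = - (conj r * p) * (1 - r * conj p) := by
      linear_combination -e3
    rw [f1, f2, f3]
    linear_combination (-((1 - p * conj q) * (1 - q * conj r) * (1 - r * conj p))) * e5
  have hP0 : P ≠ 0 := by
    rw [hP]
    exact mul_ne_zero (mul_ne_zero (ne _ z1) (ne _ z2)) (ne _ z3)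
  have hre : P.re = 0 := by
    have := congrArg Complex.re hPc
    simp only [Complex.conj_re, Complex.neg_re] at this
    linarith
  have him : P.im ≠ 0 := fun h => hP0 (Complex.ext hre h)
  obtain ⟨s, t, hs, ht, hst⟩ : ∃ (s : ℂ) (t : ℝ), (s = Complex.I ∨ s = -Complex.I) ∧ 0 < t ∧
      P = t * s := by
    rcases lt_or_gt_of_ne him with h | h
    · refine ⟨-Complex.I, -P.im, Or.inr rfl, by linarith, ?_⟩
      apply Complex.ext <;> simp [hre]
    · refine ⟨Complex.I, P.im, Or.inl rfl, h, ?_⟩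
      apply Complex.ext <;> simp [hre]
  have h12 := arg_mul' z1.le (ne _ z1) z2
  have h3 := arg_I_mul hs z3
  have hn : 0 < ‖1 - r * conj p‖ ^ 2 := by
    have := norm_pos_iff.2 (ne _ z3)
    positivity
  have key : ((‖1 - r * conj p‖ ^ 2 : ℝ) : ℂ) * ((1 - p * conj q) * (1 - q * conj r)) =
      (t : ℂ) * (s * conj (1 - r * conj p)) := by
    rw [← Complex.normSq_eq_norm_sq, ← Complex.mul_conj, ← mul_assoc (t : ℂ), ← hst, hP]
    ring
  have h4 : Complex.arg ((1 - p * conj q) * (1 - q * conj r)) =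
      Complex.arg (s * conj (1 - r * conj p)) := by
    rw [← Complex.arg_real_mul _ hn, key, Complex.arg_real_mul _ ht]
  rw [h12, h3] at h4
  have h5 : Ad p q r = 2 * Complex.arg s := by
    unfold Ad bd
    linarith
  rw [h5]
  rcases hs with rfl | rfl
  · left
    rw [Complex.arg_I]
    ring
  · right
    rw [Complex.arg_neg_I]
    ring

/-! ### small triangles -/

private lemma Ad_eq {p q r w : ℂ} (hp : ‖p‖ < 1) (hq : ‖q‖ < 1) (hr : ‖r‖ < 1)
    (hw : 0 < (1 - w).re)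
    (hid : w * ((1 - conj p * q) * (1 - p * conj r)) = (q - p) * (conj r - conj p)) :
    Ad p q r = 2 * Complex.arg (1 - w) := by
  have z1 := re_ps hp hq.le
  have z2 := re_ps hq hr.le
  have z3 := re_ps hr hp.le
  have ne : ∀ z : ℂ, 0 < z.re → z ≠ 0 := fun z hz h => by
    rw [h] at hz
    simp at hz
  have hN : 0 < 1 - ‖p‖ ^ 2 := by nlinarith [norm_nonneg p]
  have hn : 0 < ‖1 - p * conj q‖ ^ 2 := by
    have := norm_pos_iff.2 (ne _ z1)
    positivity
  have h3 : 0 < (conj (1 - r * conj p)).re := by rwa [Complex.conj_re]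
  have e1 := arg_mul' z1.le (ne _ z1) z2
  have e2 := arg_mul' hw.le (ne _ hw) h3
  rw [arg_conj' z3.le] at e2
  have key : ((1 - ‖p‖ ^ 2 : ℝ) : ℂ) * ((1 - p * conj q) * (1 - q * conj r)) =
      ((‖1 - p * conj q‖ ^ 2 : ℝ) : ℂ) * ((1 - w) * conj (1 - r * conj p)) := by
    have hpp : ((‖p‖ ^ 2 : ℝ) : ℂ) = p * conj p := by
      rw [Complex.mul_conj, Complex.normSq_eq_norm_sq]
    have h5 : ((1 - ‖p‖ ^ 2 : ℝ) : ℂ) = 1 - p * conj p := by
      rw [← hpp]
      push_cast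
      ring
    rw [h5, ← Complex.normSq_eq_norm_sq, ← Complex.mul_conj]
    simp only [map_sub, map_mul, map_one, Complex.conj_conj]
    linear_combination (1 - p * conj q) * hid
  have h4 : Complex.arg ((1 - p * conj q) * (1 - q * conj r)) =
      Complex.arg ((1 - w) * conj (1 - r * conj p)) := by
    rw [← Complex.arg_real_mul _ hN, key, Complex.arg_real_mul _ hn]
  rw [e1, e2] at h4
  unfold Ad bd
  linarith

private lemma arg_small {w : ℂ} (hw : ‖w‖ ≤ 1 / 4) : |Complex.arg (1 - w) + w.im| ≤ ‖w‖ ^ 2 := by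
  have h := Complex.norm_log_one_add_sub_self_le (z := -w) (by rw [norm_neg]; linarith)
  have h1 := Complex.abs_im_le_norm (Complex.log (1 + -w) - -w)
  rw [Complex.sub_im, Complex.log_im, Complex.neg_im, sub_neg_eq_add, ← sub_eq_add_neg] at h1
  rw [norm_neg] at h
  refine h1.trans (le_trans (le_of_eq (by rw [sub_eq_add_neg 1 w])) (h.trans ?_))
  have h2 : (1 - ‖w‖)⁻¹ ≤ 2 := by
    rw [inv_le_comm₀ (by linarith) (by norm_num)]
    linarith
  have h3 : 0 ≤ ‖w‖ ^ 2 := by positivity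
  nlinarith

private lemma part7 (r : ℝ) (hr : r < 1) : ∃ C > 0, ∃ δ0 > 0, ∀ p : ℂ, ‖p‖ ≤ r →
    ∀ δ ε : ℂ, ‖δ‖ ≤ δ0 → ‖ε‖ ≤ δ0 →
    |Ad p (p + δ) (p + ε) - 2 * dt2 δ ε / (1 - ‖p‖ ^ 2) ^ 2| ≤ C * (‖δ‖ + ‖ε‖) ^ 3 := by
  have hk : 0 < 1 - r := by linarith
  refine ⟨12 / (1 - r) ^ 4, by positivity, (1 - r) / 4, by positivity, ?_⟩
  intro p hp δ ε hδ hε
  have hr0 : 0 ≤ r := (norm_nonneg p).trans hp
  obtain ⟨k, hkk⟩ : ∃ k : ℝ, k = 1 - r := ⟨_, rfl⟩
  rw [← hkk] at hk hδ hε ⊢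
  have hk1 : k ≤ 1 := by linarith
  have hpn := norm_nonneg p
  have hp1 : ‖p‖ ≤ 1 - k := by linarith
  obtain ⟨N, hN⟩ : ∃ N : ℝ, N = 1 - ‖p‖ ^ 2 := ⟨_, rfl⟩
  have hNk : k ≤ N := by nlinarith
  have hN1 : N ≤ 1 := by nlinarith
  have hN0 : 0 < N := by linarith
  rw [← hN]
  have hdn := norm_nonneg δ
  have hen := norm_nonneg ε
  have hNc : (N : ℂ) = 1 - conj p * p := by
    rw [hN, mul_comm, Complex.mul_conj, Complex.normSq_eq_norm_sq]
    push_cast
    ring
  have hxn : ‖conj p * δ‖ ≤ ‖δ‖ := by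
    rw [norm_mul, RCLike.norm_conj]
    exact mul_le_of_le_one_left hdn (by linarith)
  have hyn : ‖p * conj ε‖ ≤ ‖ε‖ := by
    rw [norm_mul, RCLike.norm_conj]
    exact mul_le_of_le_one_left hen (by linarith)
  have hNn : ‖(N : ℂ)‖ = N := by rw [Complex.norm_real, Real.norm_of_nonneg hN0.le]
  have hX : k / 2 ≤ ‖(N : ℂ) - conj p * δ‖ := by
    have := norm_sub_norm_le (N : ℂ) (conj p * δ)
    rw [hNn] at this
    linarith
  have hY : k / 2 ≤ ‖(N : ℂ) - p * conj ε‖ := by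
    have := norm_sub_norm_le (N : ℂ) (p * conj ε)
    rw [hNn] at this
    linarith
  obtain ⟨X, hXd⟩ : ∃ X : ℂ, X = (N : ℂ) - conj p * δ := ⟨_, rfl⟩
  obtain ⟨Y, hYd⟩ : ∃ Y : ℂ, Y = (N : ℂ) - p * conj ε := ⟨_, rfl⟩
  rw [← hXd] at hX
  rw [← hYd] at hY
  have hXp : 0 < ‖X‖ := by linarith
  have hYp : 0 < ‖Y‖ := by linarith
  have hX0 : X ≠ 0 := norm_pos_iff.1 hXp
  have hY0 : Y ≠ 0 := norm_pos_iff.1 hYp
  have hNc0 : (N : ℂ) ≠ 0 := by exact_mod_cast hN0.ne'
  obtain ⟨w, hw⟩ : ∃ w : ℂ, w = δ * conj ε / (X * Y) := ⟨_, rfl⟩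
  have hXY : k ^ 2 / 4 ≤ ‖X‖ * ‖Y‖ := by nlinarith
  have hde : 0 ≤ ‖δ‖ * ‖ε‖ := by positivity
  have hwn : ‖w‖ ≤ 4 * (‖δ‖ * ‖ε‖) / k ^ 2 := by
    rw [hw, norm_div, norm_mul, norm_mul, RCLike.norm_conj, div_le_div_iff₀ (by positivity)
      (by positivity)]
    nlinarith
  have hw4 : ‖w‖ ≤ 1 / 4 := by
    refine hwn.trans ?_
    rw [div_le_div_iff₀ (by positivity) (by norm_num)]
    nlinarith [mul_le_mul hδ hε hen (by positivity : (0 : ℝ) ≤ k / 4)]
  have hwre : 0 < (1 - w).re := by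
    have := Complex.re_le_norm w
    simp only [Complex.sub_re, Complex.one_re]
    linarith
  have hq : ‖p + δ‖ < 1 := (norm_add_le _ _).trans_lt (by linarith)
  have hrr : ‖p + ε‖ < 1 := (norm_add_le _ _).trans_lt (by linarith)
  have hAd := Ad_eq (p := p) (q := p + δ) (r := p + ε) (w := w) (by linarith) hq hrr hwre (by
    have e1 : 1 - conj p * (p + δ) = X := by
      rw [hXd, hNc]
      ring
    have e2 : 1 - p * conj (p + ε) = Y := by
      rw [hYd, hNc, map_add]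
      ring
    rw [e1, e2, hw, div_mul_cancel₀ _ (mul_ne_zero hX0 hY0), map_add]
    ring)
  have h1 := arg_small hw4
  -- the difference
  have h2 : w - δ * conj ε / (N : ℂ) ^ 2 = δ * conj ε *
      ((N : ℂ) * (conj p * δ + p * conj ε) - conj p * δ * (p * conj ε)) /
      ((N : ℂ) ^ 2 * (X * Y)) := by
    rw [hw, div_sub_div _ _ (mul_ne_zero hX0 hY0) (pow_ne_zero 2 hNc0),
      div_eq_div_iff (mul_ne_zero (mul_ne_zero hX0 hY0) (pow_ne_zero 2 hNc0))
        (mul_ne_zero (pow_ne_zero 2 hNc0) (mul_ne_zero hX0 hY0))]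
    have e3 : (N : ℂ) ^ 2 - X * Y =
        (N : ℂ) * (conj p * δ + p * conj ε) - conj p * δ * (p * conj ε) := by
      rw [hXd, hYd]
      ring
    rw [← e3]
    ring
  have h3 : ‖w - δ * conj ε / (N : ℂ) ^ 2‖ ≤ 8 * (‖δ‖ * ‖ε‖ * (‖δ‖ + ‖ε‖)) / k ^ 4 := by
    rw [h2, norm_div, norm_mul, norm_mul, RCLike.norm_conj, norm_mul, norm_mul, norm_pow, hNn]
    have h4 : ‖(N : ℂ) * (conj p * δ + p * conj ε) - conj p * δ * (p * conj ε)‖ ≤
        2 * (‖δ‖ + ‖ε‖) := by
      refine (norm_sub_le _ _).trans ?_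
      rw [norm_mul, hNn]
      have h5 : ‖conj p * δ + p * conj ε‖ ≤ ‖δ‖ + ‖ε‖ :=
        (norm_add_le _ _).trans (add_le_add hxn hyn)
      have h6 : ‖conj p * δ * (p * conj ε)‖ ≤ ‖δ‖ * ‖ε‖ := by
        rw [norm_mul]
        exact mul_le_mul hxn hyn (norm_nonneg _) hdn
      have h7 : N * ‖conj p * δ + p * conj ε‖ ≤ 1 * (‖δ‖ + ‖ε‖) :=
        mul_le_mul hN1 h5 (norm_nonneg _) zero_le_one
      nlinarith
    have h8 : k ^ 4 / 4 ≤ N ^ 2 * (‖X‖ * ‖Y‖) := by
      have h9 : k ^ 2 ≤ N ^ 2 := by nlinarith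
      calc k ^ 4 / 4 = k ^ 2 * (k ^ 2 / 4) := by ring
        _ ≤ N ^ 2 * (‖X‖ * ‖Y‖) := mul_le_mul h9 hXY (by positivity) (by positivity)
    rw [div_le_div_iff₀ (by positivity) (by positivity)]
    calc ‖δ‖ * ‖ε‖ * ‖(N : ℂ) * (conj p * δ + p * conj ε) - conj p * δ * (p * conj ε)‖ * k ^ 4
        ≤ ‖δ‖ * ‖ε‖ * (2 * (‖δ‖ + ‖ε‖)) * k ^ 4 := by gcongr
      _ = 8 * (‖δ‖ * ‖ε‖ * (‖δ‖ + ‖ε‖)) * (k ^ 4 / 4) := by ring
      _ ≤ 8 * (‖δ‖ * ‖ε‖ * (‖δ‖ + ‖ε‖)) * (N ^ 2 * (‖X‖ * ‖Y‖)) := by gcongr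
  have h4 : (δ * conj ε / (N : ℂ) ^ 2).im = - (dt2 δ ε / N ^ 2) := by
    have e5 : δ * conj ε / (N : ℂ) ^ 2 = ((1 / N ^ 2 : ℝ) : ℂ) * (δ * conj ε) := by
      push_cast
      ring
    rw [e5, Complex.im_ofReal_mul]
    simp [dt2]
    ring
  have h5 := Complex.abs_im_le_norm (w - δ * conj ε / (N : ℂ) ^ 2)
  rw [Complex.sub_im, h4] at h5
  have h6 : Ad p (p + δ) (p + ε) - 2 * dt2 δ ε / N ^ 2 =
      2 * (Complex.arg (1 - w) + w.im) - 2 * (w.im - - (dt2 δ ε / N ^ 2)) := by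
    rw [hAd]
    ring
  have hs : 0 ≤ ‖δ‖ + ‖ε‖ := by positivity
  have h7 : ‖δ‖ * ‖ε‖ ≤ (‖δ‖ + ‖ε‖) ^ 2 / 4 := by nlinarith [sq_nonneg (‖δ‖ - ‖ε‖)]
  have h8 : ‖δ‖ * ‖ε‖ ≤ ‖δ‖ + ‖ε‖ := by nlinarith
  have h9 : ‖w‖ ^ 2 ≤ 4 * (‖δ‖ + ‖ε‖) ^ 3 / k ^ 4 := by
    have h10 : ‖w‖ ^ 2 ≤ (4 * (‖δ‖ * ‖ε‖) / k ^ 2) ^ 2 := pow_le_pow_left₀ (norm_nonneg _) hwn 2
    refine h10.trans ?_
    rw [div_pow, ← pow_mul, div_le_div_iff_of_pos_right (by positivity)]
    have h11 : (‖δ‖ * ‖ε‖) * (‖δ‖ * ‖ε‖) ≤ (‖δ‖ + ‖ε‖) ^ 2 / 4 * (‖δ‖ + ‖ε‖) :=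
      mul_le_mul h7 h8 hde (by positivity)
    nlinarith
  have h12 : 8 * (‖δ‖ * ‖ε‖ * (‖δ‖ + ‖ε‖)) / k ^ 4 ≤ 2 * (‖δ‖ + ‖ε‖) ^ 3 / k ^ 4 := by
    rw [div_le_div_iff_of_pos_right (by positivity)]
    have h13 : ‖δ‖ * ‖ε‖ * (‖δ‖ + ‖ε‖) ≤ (‖δ‖ + ‖ε‖) ^ 2 / 4 * (‖δ‖ + ‖ε‖) :=
      mul_le_mul_of_nonneg_right h7 hs
    nlinarith
  rw [h6]
  have h14 : |w.im - - (dt2 δ ε / N ^ 2)| ≤ 2 * (‖δ‖ + ‖ε‖) ^ 3 / k ^ 4 :=
    (h5.trans h3).trans h12
  calc |2 * (Complex.arg (1 - w) + w.im) - 2 * (w.im - - (dt2 δ ε / N ^ 2))| ≤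
      |2 * (Complex.arg (1 - w) + w.im)| + |2 * (w.im - - (dt2 δ ε / N ^ 2))| := abs_sub _ _
    _ = 2 * |Complex.arg (1 - w) + w.im| + 2 * |w.im - - (dt2 δ ε / N ^ 2)| := by
        rw [abs_mul, abs_mul, abs_two]
    _ ≤ 2 * (4 * (‖δ‖ + ‖ε‖) ^ 3 / k ^ 4) + 2 * (2 * (‖δ‖ + ‖ε‖) ^ 3 / k ^ 4) := by
        linarith [h1.trans h9]
    _ = 12 / k ^ 4 * (‖δ‖ + ‖ε‖) ^ 3 := by ring

theorem hAD1 (_hCHV : StCHV) : StAD1 := by
  unfold StAD1
  simp only [mem_closedBall_zero_iff]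
  refine ⟨fun p hp q hq => ⟨bd_abs hp hq, bd_anti hp hq⟩, fun p hp q hq r hr => ⟨?_, ?_⟩,
    fun A hA p hp q hq r hr => ?_, ?_, ?_, ?_, part7⟩
  · have h1 := abs_le.1 (bd_abs hp hq)
    have h2 := abs_le.1 (bd_abs hq hr)
    have h3 := abs_le.1 (bd_abs hr hp)
    unfold Ad
    rw [abs_le]
    constructor <;> linarith
  · have h1 := bd_anti hp hq
    have h2 := bd_anti hq hr
    have h3 := bd_anti hr hp
    unfold Ad
    rintro (rfl | rfl | rfl)
    · linarith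
    · linarith
    · linarith
  · have h1 := bd_mob hA hp hq
    have h2 := bd_mob hA hq hr
    have h3 := bd_mob hA hr hp
    unfold Ad
    linarith
  · unfold Ad bd
    have h : ∀ f g : ℂ × ℂ × ℂ → ℂ, Measurable f → Measurable g →
        Measurable fun x => 2 * Complex.arg (1 - f x * conj (g x)) := fun f g hf hg =>
      (Complex.measurable_arg.comp (measurable_const.sub
        (hf.mul (Complex.continuous_conj.measurable.comp hg)))).const_mul 2
    exact ((h _ _ measurable_fst measurable_snd.fst).add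
      (h _ _ measurable_snd.fst measurable_snd.snd)).add
      (h _ _ measurable_snd.snd measurable_fst)
  · intro A hA p
    have h := part5 hA p
    simp only [mem_closedBall_zero_iff] at h
    exact h
  · intro p hp q hq r hr hpq hqr hrp
    rw [mem_sphere_zero_iff_norm] at hp hq hr
    exact part6 hp hq hr hpq hqr hrp

end Pool.Agent.Helper70.QA
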